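import Mathlib
import Pool.Agent.Work.MP_d7cff0_as.Final

/-!
# The dual compact approximation constant of `H^p` near `p = 1`, `p = 2` and `p = ∞`

(1) `|M^*(H^p) - 2/√3| ≤ 3 (p - 1)` for `1 < p ≤ 2`; (2) `(M^*(H^p) - 1) / (p - 2)^2 → κ / 2` as
`p → 2` (from both sides), where `κ > 0` is the supremum of `(∫ Re g log |g|)^2 / ∫ |g|^2` over
the polynomials `g ≠ 0` with `g(0) = 0`; (3) `p (2 - M^*(H^p)) - (3/2) log p → log (8 e √π)` as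
`p → ∞`. The circle is `AddCircle T` with normalised Haar measure; `T = 2π` is the unit circle.
-/

namespace Pool.Agent.Results.MP_d7cff0_an.EndpointAsymptotics

open MeasureTheory AddCircle Polynomial Pool.Agent.Work.MP_d7cff0_an
open scoped ENNReal

theorem result :
    (∀ (T : ℝ) [Fact (0 < T)] (p : ℝ≥0∞) [Fact (1 ≤ p)], 1 < p → p ≠ ⊤ → p.toReal ≤ 2 →
      |Mstar (hardy T p) - 2 / √3| ≤ 3 * (p.toReal - 1)) ∧
    (∀ (T : ℝ) [Fact (0 < T)], ∃ κ : ℝ, 0 < κ ∧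
      κ = sSup {x : ℝ | ∃ g : ℂ[X], g ≠ 0 ∧ g.eval 0 = 0 ∧
        x = (∫ t : AddCircle T, (g.eval (fourier (T := T) 1 t)).re *
            Real.log ‖g.eval (fourier (T := T) 1 t)‖ ∂haarAddCircle) ^ 2 /
          ∫ t : AddCircle T, ‖g.eval (fourier (T := T) 1 t)‖ ^ 2 ∂haarAddCircle} ∧
      ∀ δ : ℝ, 0 < δ → ∃ η : ℝ, 0 < η ∧ ∀ (p : ℝ≥0∞) [Fact (1 ≤ p)], p ≠ ⊤ →
        0 < |p.toReal - 2| → |p.toReal - 2| ≤ η →
          |(Mstar (hardy T p) - 1) / (p.toReal - 2) ^ 2 - κ / 2| ≤ δ) ∧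
    (∀ (T : ℝ) [Fact (0 < T)] (ε : ℝ), 0 < ε → ∃ p₀ : ℝ,
      ∀ (p : ℝ≥0∞) [Fact (1 ≤ p)], p ≠ ⊤ → p₀ ≤ p.toReal →
        |p.toReal * (2 - Mstar (hardy T p)) -
          (3 / 2 * Real.log p.toReal + Real.log (8 * Real.exp 1 * √Real.pi))| < ε) :=
  ⟨AS.fr1, fun T _ => ⟨AS.kap T, AS.kap_pos T, rfl, AS.xfk T⟩, AS.fn3⟩

end Pool.Agent.Results.MP_d7cff0_an.EndpointAsymptotics
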