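import Mathlib
import Pool.Agent.Work.MP_d7cff0_an.Shift

/-!
# The dual compact approximation constant of `H^p` is the norm of the backward shift

For every `1 < p < ∞` the constant `M^*(H^p)` equals the operator norm on `H^p` of the backward
shift `B f = (f - f(0)) / z`. The circle is `AddCircle T` with normalised Haar measure; `T = 2π`
is the unit circle.
-/

namespace Pool.Agent.Results.MP_d7cff0_an.MstarBackwardShift

open Pool.Agent.Work.MP_d7cff0_an
open scoped ENNReal

theorem result (T : ℝ) [Fact (0 < T)] (p : ℝ≥0∞) [Fact (1 ≤ p)] (hp1 : 1 < p) (hp : p ≠ ⊤) :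
    IsBackwardShiftNorm (hardyCoeff T p) (Mstar (hardy T p)) :=
  ⟨bshift, isBackwardShift_bshift, (Mstar_hardy hp1 hp).symm⟩

end Pool.Agent.Results.MP_d7cff0_an.MstarBackwardShift
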