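import Mathlib
import Pool.Agent.Work.MP_d7cff0_an.Four

/-!
# The dual compact approximation constant of `H^4`

`M^*(H^4) = φ^{1/4}` where `φ = (1 + √5) / 2` is the golden ratio.
-/

namespace Pool.Agent.Results.MP_d7cff0_an.MstarHFour

open Pool.Agent.Work.MP_d7cff0_an
open scoped ENNReal

theorem result (T : ℝ) [Fact (0 < T)] (p : ℝ≥0∞) [Fact (1 ≤ p)] (hp : p = 4) :
    Mstar (hardy T p) = ((1 + √5) / 2) ^ (1 / 4 : ℝ) :=
  Mstar_hardy_four hp

end Pool.Agent.Results.MP_d7cff0_an.MstarHFour
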